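import Pool.Agent.J4H5.KC.Stm

set_option autoImplicit false
set_option linter.style.haveILetI false

/-! # Project KC: zeros on the line, simple, interlacing (LI, IN) -/

namespace Pool.Agent.J4H5.KC

open Complex Filter Topology Set MeasureTheory
open scoped ComplexConjugate
open Pool.Agent.Y23 Pool.Agent.Y23.G
open Pool.Agent.J4H6.GS
open Pool.Agent.J4H1.JP (Xi)

section

variable [DZ : ZD] [EC : ZC]

set_option linter.unusedSectionVars false

lemma Good.wline (hG : Good) (ρ : Zt) : (ρ : ℂ) - 1 / 2 = ((ρ : ℂ).im : ℂ) * I := by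
  apply Complex.ext
  · have := hG.line ρ ρ.2
    simp [this]
  · simp

lemma Good.im_ne (hG : Good) (ρ : Zt) : (ρ : ℂ).im ≠ 0 := by
  intro h
  apply hG.half
  have h1 := hG.wline ρ
  rw [h] at h1
  have h2 : (ρ : ℂ) = 1 / 2 := by
    have : (ρ : ℂ) - 1 / 2 = 0 := by rw [h1]; simp
    linear_combination this
  rw [← h2]
  exact ρ.2

lemma Good.neg_conj (hG : Good) (ρ : Zt) : -conj ((ρ : ℂ) - 1 / 2) = (ρ : ℂ) - 1 / 2 := by
  rw [hG.wline ρ]
  simp

lemma Mn.ne {a : ℝ} (ha : 0 < a) {f : ℝ → ℂ} (hf : Mn a f) : N2 f ≠ 0 := by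
  intro h
  have h1 := TT_zero_of_N2 ha hf.1.1 h 0
  rw [hf.2.1] at h1
  exact one_ne_zero h1

/-- the positivity principle -/
lemma key (hOR : S_OR) (hG : Good) {a : ℝ} (ha : 0 < a) {f : ℝ → ℂ} (hf : Mn a f) {g : ℝ → ℂ} (hg : Hd a g)
    (hg0 : TT g 0 = 0) (r : Zt → ℝ) (hr : ∀ ρ : Zt, TT f ((ρ : ℂ) - 1 / 2) ≠ 0 →
      TT g ((ρ : ℂ) - 1 / 2) = r ρ * TT f ((ρ : ℂ) - 1 / 2) ∧ 0 < r ρ) : False := by
  have h0 : QB f g = 0 := by
    have := hOR a ha f hf g hg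
    rw [hg0] at this
    simpa using this
  have hfd := hf.1.dom ha
  have hgd := hg.dom ha
  have hs := summable_GG hfd hgd
  have h1 : ∀ ρ : Zt, ((mu ρ : ℂ) * GG f g ((ρ : ℂ) - 1 / 2)).re =
      (mu ρ : ℝ) * (if TT f ((ρ : ℂ) - 1 / 2) = 0 then 0 else r ρ * ‖TT f ((ρ : ℂ) - 1 / 2)‖ ^ 2) := by
    intro ρ
    unfold GG
    rw [hG.neg_conj ρ]
    split_ifs with h
    · rw [h]; simp
    · rw [(hr ρ h).1, map_mul, Complex.conj_ofReal]
      have e : TT f ((ρ : ℂ) - 1 / 2) * ((r ρ : ℂ) * conj (TT f ((ρ : ℂ) - 1 / 2))) =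
          ((r ρ * ‖TT f ((ρ : ℂ) - 1 / 2)‖ ^ 2 : ℝ) : ℂ) := by
        have := Complex.mul_conj (TT f ((ρ : ℂ) - 1 / 2))
        rw [Complex.normSq_eq_norm_sq] at this
        push_cast at this ⊢
        rw [← this]; ring
      rw [e, ← Complex.ofReal_natCast, ← Complex.ofReal_mul, Complex.ofReal_re]
  have h2 : ∀ ρ : Zt, 0 ≤ (mu ρ : ℝ) * (if TT f ((ρ : ℂ) - 1 / 2) = 0 then 0 else r ρ * ‖TT f ((ρ : ℂ) - 1 / 2)‖ ^ 2) := by
    intro ρ
    split_ifs with h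
    · simp
    · have := (hr ρ h).2
      positivity
  have h3 : ∑' ρ : Zt, (mu ρ : ℝ) * (if TT f ((ρ : ℂ) - 1 / 2) = 0 then 0 else r ρ * ‖TT f ((ρ : ℂ) - 1 / 2)‖ ^ 2) = 0 := by
    rw [← tsum_congr h1]
    unfold QB at h0
    rw [← Complex.re_tsum hs, h0, Complex.zero_re]
  have hs' : Summable (fun ρ : Zt => (mu ρ : ℝ) * (if TT f ((ρ : ℂ) - 1 / 2) = 0 then 0 else r ρ * ‖TT f ((ρ : ℂ) - 1 / 2)‖ ^ 2)) := by
    refine (Complex.reCLM.summable hs).congr fun ρ => ?_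
    rw [Complex.reCLM_apply]
    exact (h1 ρ)
  have h4 : ∀ ρ : Zt, (mu ρ : ℝ) * (if TT f ((ρ : ℂ) - 1 / 2) = 0 then 0 else r ρ * ‖TT f ((ρ : ℂ) - 1 / 2)‖ ^ 2) = 0 := by
    have := (hasSum_zero_iff_of_nonneg h2).1 (h3 ▸ hs'.hasSum)
    intro ρ
    exact congrFun this ρ
  have h5 : ∀ ρ : Zt, TT f ((ρ : ℂ) - 1 / 2) = 0 := by
    intro ρ
    by_contra hne
    have h6 := h4 ρ
    rw [if_neg hne] at h6
    have h7 : (1 : ℝ) ≤ mu ρ := by exact_mod_cast DZ.mpos ρ ρ.2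
    have h8 : 0 < r ρ * ‖TT f ((ρ : ℂ) - 1 / 2)‖ ^ 2 := by
      have := (hr ρ hne).2
      have := norm_pos_iff.2 hne
      positivity
    nlinarith
  have h6 : QQ f = 0 := by
    unfold QQ GG
    simp only [h5, zero_mul, Complex.zero_re, mul_zero, tsum_zero]
  have h7 := hG.pos a ha f hf.1 (hf.ne ha)
  linarith

/-- multiplication by `w²/((w - z₁)(w - z₂))` -/
lemma mul2 {a : ℝ} {f g1 g2 : ℝ → ℂ} {z1 z2 : ℂ} (hf : Hd a f) (hg1 : Hd a g1) (hg2 : Hd a g2)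
    (h1 : ∀ w, (w - z1) * TT g1 w = TT f w) (h2 : ∀ w, (w - z2) * TT g2 w = TT g1 w) :
    ∃ g : ℝ → ℂ, Hd a g ∧ ∀ w, TT g w = w ^ 2 * TT g2 w := by
  refine ⟨fun x => f x + ((z1 + z2) * g1 x + z2 ^ 2 * g2 x), hf.add ((hg1.smul _).add (hg2.smul _)), fun w => ?_⟩
  rw [TT_add hf.1 ((hg1.smul _).add (hg2.smul _)).1, TT_add (hg1.smul _).1 (hg2.smul _).1, TT_smul, TT_smul]
  rw [← h1 w, ← h2 w]
  ring

lemma two_zeros (hOR : S_OR) (hG : Good) {a : ℝ} (ha : 0 < a) {f : ℝ → ℂ} (hf : Mn a f) {g1 g2 : ℝ → ℂ} {z1 z2 : ℂ}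
    (hg1 : Hd a g1) (hg2 : Hd a g2) (h1 : ∀ w, (w - z1) * TT g1 w = TT f w) (h2 : ∀ w, (w - z2) * TT g2 w = TT g1 w)
    (hr : ∀ ρ : Zt, TT f ((ρ : ℂ) - 1 / 2) ≠ 0 → ∃ s : ℝ, 0 < s ∧
      ((((ρ : ℂ).im : ℂ) * I) - z1) * ((((ρ : ℂ).im : ℂ) * I) - z2) = -(s : ℂ)) : False := by
  obtain ⟨g, hg, hgw⟩ := mul2 hf.1 hg1 hg2 h1 h2
  choose! s hs using hr
  refine key hOR hG ha hf hg (by rw [hgw]; simp) (fun ρ => (ρ : ℂ).im ^ 2 / s ρ) fun ρ hρ => ?_
  obtain ⟨hs0, hs1⟩ := hs ρ hρ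
  have him := hG.im_ne ρ
  refine ⟨?_, by positivity⟩
  have e1 : TT f ((ρ : ℂ) - 1 / 2) = -(s ρ : ℂ) * TT g2 ((ρ : ℂ) - 1 / 2) := by
    rw [← h1, ← h2, ← hs1, hG.wline ρ]; ring
  have hs2 : (s ρ : ℂ) ≠ 0 := by exact_mod_cast hs0.ne'
  rw [hgw, e1, hG.wline ρ]
  push_cast
  field_simp
  rw [I_sq]
  ring

end

theorem t_LI (hOR : S_OR) (hEV : S_EV) : S_LI := by
  intro _ _ hG a ha f hf w0 hw0
  obtain ⟨-, hev, hre⟩ := hEV hG a ha f hf
  obtain ⟨g1, hg1, h1, -⟩ := hf.1.div ha w0 hw0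
  have hline : w0.re = 0 := by
    by_contra hne
    have hz2 : TT f (-conj w0) = 0 := by rw [hev, hre, hw0, map_zero]
    have hne2 : -conj w0 - w0 ≠ 0 := by
      intro h
      have := congrArg Complex.re h
      simp at this
      apply hne
      linarith
    have hz3 : TT g1 (-conj w0) = 0 := by
      have h2 := h1 (-conj w0)
      rw [hz2] at h2
      exact (mul_eq_zero.1 h2).resolve_left hne2
    obtain ⟨g2, hg2, h2, -⟩ := hg1.div ha (-conj w0) hz3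
    refine two_zeros hOR hG ha hf hg1 hg2 h1 h2 fun ρ hρ => ?_
    set t : ℝ := (ρ : ℂ).im with ht
    refine ⟨‖(t : ℂ) * I - w0‖ ^ 2, ?_, ?_⟩
    · have : (t : ℂ) * I - w0 ≠ 0 := by
        intro h
        apply hne
        have := congrArg Complex.re h
        simp at this
        exact this
      have := norm_pos_iff.2 this
      positivity
    · have h3 := Complex.mul_conj ((t : ℂ) * I - w0)
      rw [Complex.normSq_eq_norm_sq] at h3
      push_cast at h3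
      rw [Complex.ofReal_pow, ← h3, map_sub, map_mul, Complex.conj_I, Complex.conj_ofReal]
      ring
  refine ⟨hline, fun hder => ?_⟩
  have hz3 : TT g1 w0 = 0 := by
    have h2 : HasDerivAt (fun w => (w - w0) * TT g1 w) (1 * TT g1 w0 + (w0 - w0) * deriv (TT g1) w0) w0 :=
      ((hasDerivAt_id w0).sub_const w0).mul (differentiable_TT hg1.1 w0).hasDerivAt
    have h3 : (fun w => (w - w0) * TT g1 w) = TT f := funext h1
    rw [h3] at h2
    have h4 := h2.deriv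
    rw [hder] at h4
    simpa using h4.symm
  obtain ⟨g2, hg2, h2, -⟩ := hg1.div ha w0 hz3
  refine two_zeros hOR hG ha hf hg1 hg2 h1 h2 fun ρ hρ => ?_
  have e0 : w0 = (w0.im : ℂ) * I := by
    apply Complex.ext
    · simp [hline]
    · simp
  have hne : (ρ : ℂ).im ≠ w0.im := by
    intro h
    apply hρ
    rw [hG.wline ρ, h, ← e0, hw0]
  refine ⟨((ρ : ℂ).im - w0.im) ^ 2, by have := sub_ne_zero.2 hne; positivity, ?_⟩
  rw [e0]
  push_cast
  simp only [Complex.mul_im, Complex.ofReal_re, Complex.I_im, mul_one, Complex.ofReal_im, Complex.I_re, mul_zero, add_zero]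
  linear_combination (((ρ : ℂ).im : ℂ) - (w0.im : ℂ)) ^ 2 * I_sq

theorem t_IN (hOR : S_OR) : S_IN := by
  intro DZ' EC' hG a ha f hf t t' ht htt h0 h0'
  by_contra hcon
  push Not at hcon
  have hcon' : ∀ ρ : Zt, ¬ (t < (ρ : ℂ).im ∧ (ρ : ℂ).im < t') := by
    rintro ρ ⟨h1, h2⟩
    have h3 : (ρ : ℂ).im ∈ Ord := by
      refine ⟨by linarith, ?_⟩
      have h4 := hG.wline ρ
      have h5 : (1 / 2 + ((ρ : ℂ).im : ℂ) * I : ℂ) = ρ := by rw [← h4]; ring
      rw [h5]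
      exact ρ.2
    exact absurd h2 (not_lt.2 (hcon _ h3 h1))
  obtain ⟨g1, hg1, h1, -⟩ := hf.1.div ha (t' * I) h0'
  rcases h0 with h0 | h0
  · -- one zero
    subst h0
    refine key hOR hG ha hf (hf.1.add (hg1.smul (t' * I))) ?_ (fun ρ => (ρ : ℂ).im / ((ρ : ℂ).im - t')) fun ρ hρ => ?_
    · rw [TT_add hf.1.1 (hg1.smul _).1, TT_smul]
      have := h1 0
      rw [← this]; ring
    · have him := hG.im_ne ρ
      have hne : (ρ : ℂ).im ≠ t' := by
        intro h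
        apply hρ
        rw [hG.wline ρ, h, h0']
      constructor
      · rw [TT_add hf.1.1 (hg1.smul _).1, TT_smul]
        have h2 := h1 ((ρ : ℂ) - 1 / 2)
        have h3 : ((((ρ : ℂ).im - t' : ℝ)) : ℂ) ≠ 0 := by exact_mod_cast sub_ne_zero.2 hne
        rw [← h2, hG.wline ρ]
        push_cast at h3 ⊢
        field_simp
        ring
      · rcases lt_or_gt_of_ne him with h | h
        · exact div_pos_of_neg_of_neg h (by linarith)
        · refine div_pos h ?_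
          have h4 := hcon' ρ
          have h5 : ¬ (ρ : ℂ).im < t' := fun h6 => h4 ⟨h, h6⟩
          exact sub_pos.2 (lt_of_le_of_ne (not_lt.1 h5) (Ne.symm hne))
  · have hz3 : TT g1 (t * I) = 0 := by
      have h2 := h1 (t * I)
      rw [h0] at h2
      refine (mul_eq_zero.1 h2).resolve_left ?_
      intro h
      have := congrArg Complex.im h
      simp at this
      linarith
    obtain ⟨g2, hg2, h2, -⟩ := hg1.div ha (t * I) hz3
    refine two_zeros hOR hG ha hf hg1 hg2 h1 h2 fun ρ hρ => ?_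
    have hne : (ρ : ℂ).im ≠ t := by
      intro h
      apply hρ
      rw [hG.wline ρ, h, h0]
    have hne' : (ρ : ℂ).im ≠ t' := by
      intro h
      apply hρ
      rw [hG.wline ρ, h, h0']
    refine ⟨((ρ : ℂ).im - t') * ((ρ : ℂ).im - t), ?_, ?_⟩
    · have h4 := hcon' ρ
      rcases lt_or_gt_of_ne hne with h | h
      · exact mul_pos_of_neg_of_neg (by linarith) (by linarith)
      · have h5 : ¬ (ρ : ℂ).im < t' := fun h6 => h4 ⟨h, h6⟩
        exact mul_pos (sub_pos.2 (lt_of_le_of_ne (not_lt.1 h5) (Ne.symm hne'))) (by linarith)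
    · push_cast
      linear_combination (((ρ : ℂ).im : ℂ) - (t' : ℂ)) * (((ρ : ℂ).im : ℂ) - (t : ℂ)) * I_sq

end Pool.Agent.J4H5.KC
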