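import Pool.Agent.J4H6.GS.Stm

set_option autoImplicit false
set_option linter.style.haveILetI false

/-!
# Project KC: the minimisers of Weil's form with a given integral converge to `ξ` (helper5)

For `a > 0` let `f_a` be the minimiser of Weil's form `QQ f` among the functions of the domain (support in `[-a, a]`) with `∫ f = TT f 0 = 1`;
`F_a = TT f_a`.  (`F_a = K_a(0, ·) / K_a(0, 0)`, `K_a` the reproducing kernel of Weil's form.)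

THEOREM. (1) The Riemann hypothesis holds iff `QQ` is bounded below on `{TT f 0 = 1}` for all `a` (iff for arbitrarily large `a`).
On the Riemann hypothesis, for all `a > 0`:
(2) `f_a` exists and is unique, `F_a` is even and real, all its zeros are simple and on `Re w = 0`;
(3) between any two zeros `it, it'` (`0 < t < t'`) of `F_a` there is a zero of zeta, and between `0` and the first zero: the `k`-th zero of `F_a`
is larger than the `k`-th zero of zeta (distinct zeros);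
(4) as `a → ∞`, `F_a → X w = ∏_{γ > 0} (1 + w²/γ²)` locally uniformly (distinct zeros `1/2 + iγ`); the limit is `ξ(1/2 + w)/ξ(1/2)` iff all zeros of
zeta are simple;
(5) for every zero `1/2 + iγ`, `γ > 0`, and `c < 2π`, for large `a`, `F_a` has a zero `it` with `γ < t ≤ γ + exp (-c e^{2a})`.

PROOF of (2), (3). `∑ m_γ F_a(iγ) conj (G(iγ)) = 0` for all `G` of the class with `G(0) = 0` (OR). A zero `w₀` with `Re w₀ ≠ 0`: `G = w F/(w - w₀)`,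
`∑ m |F|² (γ² - iγ conj w₀)/|iγ - w₀|² = 0`; imaginary part: `∑ m |F|² γ/|..|² = 0`; real part: `∑ m |F|² γ²/|..|² = 0`. Zeros `it, it'` (or a double
zero `t = t'`): `G = w² F/((w² + t²)(w² + t'²))`: `∑ m |F|² γ²/((γ² - t²)(γ² - t'²)) = 0`. PROOF of (4): `F_a = ∏ (1 + w²/t²)` (Hadamard, order one,
even); by (3) this is `∏_γ (1 + u_a(γ) w²)` with `0 ≤ u_a(γ) ≤ 1/γ²`; `|F_a(iγ)|² ≤ QQ f_a → 0` gives `u_a(γ) → 1/γ²` by induction on `γ`; dominated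
convergence.
-/

namespace Pool.Agent.J4H5.KC

open Complex Filter Topology Set MeasureTheory
open scoped ComplexConjugate
open Pool.Agent.Y23 Pool.Agent.Y23.G
open Pool.Agent.J4H6.GS
open Pool.Agent.J4H1.JP (Xi)

/-- minimisers of Weil's form with integral `1` -/
def Mn [D : ZD] (a : ℝ) (f : ℝ → ℂ) : Prop := Hd a f ∧ TT f 0 = 1 ∧ ∀ g : ℝ → ℂ, Hd a g → TT g 0 = 1 → QQ f ≤ QQ g

/-- the situation on the Riemann hypothesis -/
structure Good [D : ZD] : Prop where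
  line : ∀ s ∈ D.Zs, s.re = 1 / 2
  sym : ∀ s ∈ D.Zs, conj s ∈ D.Zs
  msym : ∀ s ∈ D.Zs, D.mul (conj s) = D.mul s
  half : (1 / 2 : ℂ) ∉ D.Zs
  pos : ∀ a : ℝ, 0 < a → ∀ f : ℝ → ℂ, Hd a f → N2 f ≠ 0 → 0 < QQ f

/-- the positive ordinates -/
def Ord [D : ZD] : Set ℝ := {t : ℝ | 0 < t ∧ (1 / 2 + t * I : ℂ) ∈ D.Zs}

/-! ## A. The minimisers (general zero data) -/

/-- EX: existence. PROOF. `GM a > 0` (`exists_ground`), so `GM a * N2 f ≤ QQ f` (`bq_nonneg`). Minimising sequence `f n`; parallelogram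
identity (`bq_line` with `μ = 0`, `t = ±1`): `QQ (f n - f m) ≤ 2 QQ (f n) + 2 QQ (f m) - 4 inf → 0`; so `N2` and (`coer`) `LL` of the differences tend
to `0`; `complete_seq`; `TT g 0 = 1` by `norm_TT_le`, `QQ g = lim QQ (f n)` by `bq_le`/`dom_of_Hd`, `QQ_abs_le` and `bq_line`. -/
def S_EX : Prop := ∀ [D : ZD] [ZC], ∀ a : ℝ, 0 < a → (∀ f : ℝ → ℂ, Hd a f → N2 f ≠ 0 → 0 < QQ f) → ∃ f : ℝ → ℂ, Mn a f

/-- OR: orthogonality. PROOF. For `TT g 0 = 0`: `QQ (f + t g) ≥ QQ f` for all complex `t`, `bq_line` (`μ = 0`). In general use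
`g - TT g 0 • f`. -/
def S_OR : Prop := ∀ [D : ZD] [ZC], ∀ a : ℝ, 0 < a → ∀ f : ℝ → ℂ, Mn a f → ∀ g : ℝ → ℂ, Hd a g → QB f g = conj (TT g 0) * QQ f

/-- EV: uniqueness and symmetry. PROOF. Uniqueness: `QQ (f - g) = 0` by OR, so `N2 (f - g) = 0` (`Good.pos`), `TT_zero_of_N2`. The functions `f(-x)` and
`conj f(x)` are minimisers too (as `sh'` in `Y23/G/No.lean`; the zeros are symmetric). -/
def S_EV : Prop := ∀ [D : ZD] [ZC], Good → ∀ a : ℝ, 0 < a → ∀ f : ℝ → ℂ, Mn a f →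
  (∀ g : ℝ → ℂ, Mn a g → N2 (fun x => f x - g x) = 0 ∧ ∀ w : ℂ, TT g w = TT f w) ∧
  (∀ w : ℂ, TT f (-w) = TT f w) ∧ (∀ w : ℂ, TT f (conj w) = conj (TT f w))

/-- LI: the zeros are simple and on the line (helper5). -/
def S_LI : Prop := ∀ [D : ZD] [ZC], Good → ∀ a : ℝ, 0 < a → ∀ f : ℝ → ℂ, Mn a f →
  ∀ w : ℂ, TT f w = 0 → w.re = 0 ∧ deriv (TT f) w ≠ 0

/-- IN: interlacing (helper5). -/
def S_IN : Prop := ∀ [D : ZD] [ZC], Good → ∀ a : ℝ, 0 < a → ∀ f : ℝ → ℂ, Mn a f → ∀ t t' : ℝ, 0 ≤ t → t < t' →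
  (t = 0 ∨ TT f (t * I) = 0) → TT f (t' * I) = 0 → ∃ γ ∈ Ord, t < γ ∧ γ < t'

/-! ## B. Complex analysis -/

/-- HAD: the product of an even entire function of order at most `3/2`. PROOF. As in `Pool/Agent/H1R3/Z/Had.lean` (`div_factors`, `zeros_finite`,
`quot_bound`, `log_bounds`): `G z = ∏_{G a = 0, |a| < R} (1 - z/a) * h_R z`, `h_R` has no zero in `|z| < R`, is even, `h_R 0 = 1`,
`|h_R| ≤ exp (A + B (4R)^{3/2})` for `|z| ≤ 4R`; so `log h_R` is even, `= O(|z|² R^{-1/2})` by Borel-Carathéodory (and Schwarz for `log h_R z / z`)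
and tends to `0`. The zeros come in pairs `± it`; the product over the balls is cofinal in the unconditional product (summability). -/
def S_HAD : Prop := ∀ (G : ℂ → ℂ) (A B : ℝ), 0 ≤ B → Differentiable ℂ G → (∀ z : ℂ, ‖G z‖ ≤ Real.exp (A + B * ‖z‖ ^ (3 / 2 : ℝ))) →
  G 0 = 1 → (∀ z : ℂ, G (-z) = G z) → (∀ z : ℂ, G z = 0 → z.re = 0 ∧ deriv G z ≠ 0) →
  Summable (fun t : {t : ℝ // 0 < t ∧ G (t * I) = 0} => 1 / (t : ℝ) ^ 2) →
  ∀ z : ℂ, HasProd (fun t : {t : ℝ // 0 < t ∧ G (t * I) = 0} => 1 + z ^ 2 / ((t : ℝ) : ℂ) ^ 2) (G z)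

/-- CV: convergence of products. PROOF. `Γ` is locally finite. Strong induction on `γ`: for `γ' < γ` (finitely many) `u a γ' → 1/γ'²`, for `γ' > γ`
`1 - u a γ' γ² ≥ 1 - γ²/γ'²`; so the product of the factors `γ' ≠ γ` of `F a (γ I)` is bounded below, `1 - u a γ γ² ≤ C ‖F a (γ I)‖` for large `a`, and
`u a γ = 1/t²`. Locally uniform convergence: `‖∏ (1 + u z²) - ∏ (1 + z²/γ²)‖ ≤ ‖z‖² (∑ (1/γ² - u)) ∏ (1 + ‖z‖²/γ²)`, dominated convergence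
(`tendsto_tsum_of_dominated_convergence`). `X` is the locally uniform limit of the partial products; `X (w) = (1 + w²/γ²) X_γ(w)`, `X_γ (iγ) ≠ 0`. -/
def S_CV : Prop := ∀ (Γ : Set ℝ) (F : ℝ → ℂ → ℂ) (u : ℝ → Γ → ℝ) (a0 : ℝ), (∀ γ ∈ Γ, 0 < γ) → Summable (fun γ : Γ => 1 / (γ : ℝ) ^ 2) →
  (∀ a : ℝ, a0 ≤ a → (∀ z : ℂ, HasProd (fun γ : Γ => 1 + (u a γ : ℂ) * z ^ 2) (F a z)) ∧
    ∀ γ : Γ, u a γ = 0 ∨ ∃ t : ℝ, (γ : ℝ) < t ∧ F a (t * I) = 0 ∧ u a γ = 1 / t ^ 2) →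
  (∀ γ : Γ, Tendsto (fun a => F a ((γ : ℝ) * I)) atTop (𝓝 0)) →
  (∃ X : ℂ → ℂ, Differentiable ℂ X ∧ (∀ z : ℂ, HasProd (fun γ : Γ => 1 + z ^ 2 / ((γ : ℝ) : ℂ) ^ 2) (X z)) ∧
    (∀ z : ℂ, X z = 0 ↔ ∃ γ ∈ Γ, z = γ * I ∨ z = -(γ * I)) ∧ (∀ z : ℂ, X z = 0 → deriv X z ≠ 0) ∧
    TendstoLocallyUniformly F X atTop) ∧
  ∀ γ ∈ Γ, ∃ C : ℝ, 0 < C ∧ ∀ᶠ a in atTop, ∃ t : ℝ, γ < t ∧ t ≤ γ + C * ‖F a (γ * I)‖ ∧ F a (t * I) = 0

/-- GL: the conclusion for general zero data. PROOF. `φ t = max {γ ∈ Ord | γ < t}` is strictly increasing on the positive zeros of `F_a` by IN and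
`φ t < t`; `u γ = 1/t²` if `γ = φ t` and `0` if `γ` is not a value of `φ`; HAD (growth: `norm_TT_le`), CV with
`‖F_a (iγ)‖² ≤ QQ f_a` and the hypothesis. (The hypothesis gives `QQ f_a → 0`; `QQ f_a` is nonincreasing.) -/
def S_GL : Prop := ∀ [D : ZD] [ZC], Good → ∀ f : ℝ → ℝ → ℂ, (∀ a : ℝ, 0 < a → Mn a (f a)) → Tendsto (fun a => QQ (f a)) atTop (𝓝 0) →
  (∃ X : ℂ → ℂ, Differentiable ℂ X ∧ (∀ z : ℂ, HasProd (fun γ : Ord => 1 + z ^ 2 / ((γ : ℝ) : ℂ) ^ 2) (X z)) ∧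
    (∀ z : ℂ, X z = 0 ↔ ∃ γ ∈ Ord, z = γ * I ∨ z = -(γ * I)) ∧ (∀ z : ℂ, X z = 0 → deriv X z ≠ 0) ∧
    TendstoLocallyUniformly (fun a => TT (f a)) X atTop) ∧
  ∀ γ ∈ Ord, ∃ C : ℝ, 0 < C ∧ ∀ᶠ a in atTop, ∃ t : ℝ, γ < t ∧ t ≤ γ + C * ‖TT (f a) (γ * I)‖ ∧ TT (f a) (t * I) = 0

/-! ## C. Zeta -/

/-- GD: PROOF. `t_STR` (`J4H79/GS/Strict.lean`), `Xi 0 ≠ 0` (`Helper242.KK.FT_zero_ne`, see `t_KER2`), functional equation and conjugation. -/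
def S_GD : Prop := ∀ h : S_A, letI := mkZD h; RiemannHypothesis → Good

/-- EN: test functions. PROOF. As `t_KER2` (`J4H6/GS/Ker3.lean`) without division: `V = ` the mean of `f_μ` over `[x - ε, x + ε]` (`smooth_px`),
`TT V w = TT f_μ w * sinh (εw)/(εw)`, `TT V 0 = ζ(1/2) MM H (1/2)` bounded below by LIM (`ζ(1/2) ≠ 0` as `Xi 0 ≠ 0`), twice smoothed to have two
derivatives if needed; CUT2 with `w0 = 0`, `W = V`, `U = -V'`; `QQ` as in `t_POS2`. -/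
def S_EN : Prop := ∀ h : S_A, letI := mkZD h; RiemannHypothesis → ∀ c : ℝ, c < 2 * Real.pi → ∀ᶠ a : ℝ in atTop,
  ∃ g : ℝ → ℂ, Hd a g ∧ TT g 0 = 1 ∧ QQ g ≤ Real.exp (-(2 * c * Real.exp (2 * a)))

/-- NB: if the Riemann hypothesis fails. PROOF. `J4H5.GS.index_zeta` with `n = 2` (`ρ` and `conj ρ`; `ρ` is not real: `Pool/Agent/H307R2/Sg6.lean`,
`zeta_neg`): a two-dimensional subspace on which `QQ` is negative contains `g ≠ 0` with `TT g 0 = 0`, `QQ g < 0`; with `h` in the domain,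
`TT h 0 = 1`: `QQ (h + t g) → -∞`. -/
def S_NB : Prop := ∀ h : S_A, letI := mkZD h; ¬ RiemannHypothesis → ∀ᶠ a : ℝ in atTop, ∀ M : ℝ, ∃ g : ℝ → ℂ, Hd a g ∧ TT g 0 = 1 ∧ QQ g ≤ M

/-- XI: the limit is `ξ` iff all zeros are simple. PROOF. `→`: `X` has simple zeros. `←`: HAD for `Xi / Xi 0` (growth: `J4H1/JP`, `Ent F`), uniqueness of
`HasProd`. -/
def S_XI : Prop := ∀ h : S_A, letI := mkZD h; RiemannHypothesis → ∀ X : ℂ → ℂ, Differentiable ℂ X →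
  (∀ z : ℂ, HasProd (fun γ : Ord => 1 + z ^ 2 / ((γ : ℝ) : ℂ) ^ 2) (X z)) → (∀ z : ℂ, X z = 0 → deriv X z ≠ 0) →
  ((∀ z : ℂ, X z = Xi z / Xi 0) ↔ ∀ s ∈ zz, mz s = 1)

end Pool.Agent.J4H5.KC
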